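import Pool.Agent.Y462.PA.Stm

set_option autoImplicit false

/-!
# Polynomial activity: embedding of the periodic directed group (job PA-BD)
-/

open Classical

namespace Pool.Agent.Y438.PA

open Pool.Agent.Y462.SS Pool.Agent.Y462.PA

variable {X : Type} {d : X} {P : ℕ} {H : Subgroup (T X)}

/-- the value of the embedding at `n` -/
noncomputable def fv (b : Bd d P H) (n : ℕ) : Wr X H where
  s := fun x => if hx : x = d then 1 else ⟨sec (al (dray d) b.1 n) x, b.2.2.2 n x hx⟩
  p := root (al (dray d) b.1 n)

theorem fv_s_eq (b : Bd d P H) (n : ℕ) : (fv b n).s d = 1 := by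
  simp [fv]

theorem fv_s_ne (b : Bd d P H) (n : ℕ) {x : X} (hx : x ≠ d) :
    ((fv b n).s x).1 = sec (al (dray d) b.1 n) x := by
  simp [fv, hx]

theorem fv_p (b : Bd d P H) (n : ℕ) : (fv b n).p = root (al (dray d) b.1 n) := rfl

theorem fv_mul (a b : Bd d P H) (n : ℕ) : fv (a * b) n = fv a n * fv b n := by
  have hal : al (dray d) (a * b : Bd d P H).1 n = al (dray d) a.1 n * al (dray d) b.1 n :=
    al_mul b.2.1 n
  apply Wr.ext
  · funext x
    rw [Wr.mul_s]
    by_cases hx : x = d
    · subst hx
      have e : (fv b n).p x = x := b.2.1 n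
      rw [e, fv_s_eq, fv_s_eq, fv_s_eq, mul_one]
    · have hx' : (fv b n).p x ≠ d := by
        intro h
        exact hx ((root (al (dray d) b.1 n)).injective (h.trans (b.2.1 n).symm))
      apply Subtype.ext
      rw [Subgroup.coe_mul, fv_s_ne _ _ hx, fv_s_ne _ _ hx, fv_s_ne _ _ hx', hal, sec_mul]
      rfl
  · rw [Wr.mul_p, fv_p, fv_p, fv_p, hal, root_mul]

theorem al_per {b : T X} (hb : al (dray d) b P = b) (n : ℕ) :
    al (dray d) b (n + P) = al (dray d) b n := by
  induction n with
  | zero =>
    rw [zero_add, hb]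
    rfl
  | succ n ih =>
    have e : n + 1 + P = (n + P) + 1 := by omega
    rw [e, al, ih, al]
    rfl

theorem al_per2 {b : T X} (hb : al (dray d) b P = b) (n k : ℕ) :
    al (dray d) b (n + P * k) = al (dray d) b n := by
  induction k with
  | zero => rw [mul_zero, add_zero]
  | succ k ih =>
    have e : n + P * (k + 1) = (n + P * k) + P := by ring
    rw [e, al_per hb, ih]

theorem triv {b : T X} (h1 : ∀ n, root (al (dray d) b n) = 1)
    (h2 : ∀ n x, x ≠ d → sec (al (dray d) b n) x = 1) (w : List X) :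
    ∀ n, (al (dray d) b n).1 w = w := by
  induction w with
  | nil => exact fun n => nil_eq _
  | cons x w ih =>
    intro n
    rw [cons_eq, h1 n, Equiv.Perm.one_apply]
    by_cases hx : x = d
    · subst hx
      have := ih (n + 1)
      have e : al (dray x) b (n + 1) = sec (al (dray x) b n) x := rfl
      rw [e] at this
      rw [this]
    · rw [h2 n x hx]
      rfl

theorem t_bd : S_BD := by
  intro X d P hP H
  refine ⟨⟨⟨fun b n => fv b n, ?_⟩, ?_⟩, ?_⟩
  · funext n
    have h := fv_mul (1 : Bd d P H) 1 n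
    rw [mul_one] at h
    exact (left_eq_mul.1 h)
  · intro a b
    funext n
    exact fv_mul a b n
  · rw [injective_iff_map_eq_one]
    intro b hb
    have hb' : ∀ n : ℕ, n < P → fv b n = 1 := fun n hn => congrFun hb ⟨n, hn⟩
    have hmod : ∀ n, al (dray d) b.1 n = al (dray d) b.1 (n % P) := by
      intro n
      conv_lhs => rw [← Nat.mod_add_div n P]
      exact al_per2 b.2.2.1 _ _
    have h1 : ∀ n, root (al (dray d) b.1 n) = 1 := by
      intro n
      rw [hmod]
      exact congrArg Wr.p (hb' _ (Nat.mod_lt _ hP))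
    have h2 : ∀ n x, x ≠ d → sec (al (dray d) b.1 n) x = 1 := by
      intro n x hx
      rw [hmod, ← fv_s_ne b _ hx, hb' _ (Nat.mod_lt _ hP)]
      rfl
    apply Subtype.ext
    apply Subtype.ext
    apply Equiv.ext
    intro w
    exact triv h1 h2 w 0

end Pool.Agent.Y438.PA
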